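import Pool.Agent.Run7.h409.Nz.Pot

/-!
# Finite additive bases of order two
-/

set_option autoImplicit false
set_option linter.unusedSectionVars false

open Finset

namespace Run7.h409.Nz

open Run7.h409.Dig

/-- the indicator function of a finite set -/
def ind (A : Finset ℕ) (i : ℕ) : ℕ := if i ∈ A then 1 else 0

lemma Kw_ind (A : Finset ℕ) (n : ℕ) : Kw (ind A) n ≤ A.card := by
  unfold Kw ind
  rw [← card_filter]
  exact card_le_card fun i hi => (mem_filter.mp hi).2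

lemma hyp_basis {A : Finset ℕ} {n : ℕ}
    (hA : ∀ m, m ≤ n → ∃ a ∈ A, ∃ d ∈ A, a + d = m) :
    Hyp (ind A) n 2 (49 * Kw (ind A) n) := by
  intro c α β hc hα hβ hg
  set t := tp n 12 c α β with ht
  have htle : ∀ m, t m ≤ 49 * c := by
    intro m
    have := tp_le n 12 c α β hα hβ m
    push_cast at this
    rw [ht]
    linarith
  have h1 : ∀ m ∈ range (n + 1), 2 * t m ≤ (rw' (ind A) m : ℝ) * t m +
      ((rw' (ind A) m % 2 : ℕ) : ℝ) * (49 * c) := by
    intro m hm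
    have hm' := mem_range.mp hm
    obtain ⟨a, ha, d, hd, had⟩ := hA m (by omega)
    have h2 : 1 ≤ rw' (ind A) m := by
      unfold rw'
      calc 1 = ind A a * ind A d := by unfold ind; rw [if_pos ha, if_pos hd]
        _ ≤ _ := single_le_sum (s := antidiagonal m) (a := (a, d))
          (f := fun p : ℕ × ℕ => ind A p.1 * ind A p.2)
          (fun i _ => Nat.zero_le _) (HasAntidiagonal.mem_antidiagonal.mpr had)
    have h3 : 2 ≤ rw' (ind A) m + rw' (ind A) m % 2 := by omega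
    have h4 : (2 : ℝ) ≤ rw' (ind A) m + ((rw' (ind A) m % 2 : ℕ) : ℝ) := by exact_mod_cast h3
    have h5 := mul_le_mul_of_nonneg_right h4 (hg m)
    have h6 : ((rw' (ind A) m % 2 : ℕ) : ℝ) * t m ≤ ((rw' (ind A) m % 2 : ℕ) : ℝ) * (49 * c) :=
      mul_le_mul_of_nonneg_left (htle m) (Nat.cast_nonneg _)
    linarith
  have h2 := sum_le_sum h1
  rw [← mul_sum, sum_add_distrib, ← sum_mul] at h2
  have h3 : (∑ m ∈ range (n + 1), ((rw' (ind A) m % 2 : ℕ) : ℝ)) ≤ Kw (ind A) n := by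
    exact_mod_cast mid_sum (ind A) n
  have h4 := mul_le_mul_of_nonneg_right h3 (by positivity : 0 ≤ 49 * c)
  have h5 : ∑ m ∈ range n, t m ≤ ∑ m ∈ range (n + 1), t m := by
    rw [sum_range_succ]
    have := hg n
    linarith
  linarith

/-- **Finite additive bases of order two.** -/
theorem bases152 : ∃ n0 : ℕ, ∀ n : ℕ, n0 ≤ n → ∀ A : Finset ℕ,
    (∀ m, m ≤ n → ∃ a ∈ A, ∃ d ∈ A, a + d = m) → 2 * (n : ℝ) < 625 / 722 * (A.card : ℝ) ^ 2 := by
  obtain ⟨n1, hn1⟩ := exists_nat_ge ((49 * 35000 : ℝ) ^ 2)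
  refine ⟨n1 + 20000000, fun n hn A hA => ?_⟩
  have hn0 : (20000000 : ℝ) ≤ n := by exact_mod_cast (by omega : 20000000 ≤ n)
  have h1 : 2 * (n : ℝ) < t0 * (Kw (ind A) n : ℝ) ^ 2 := by
    by_contra hcon
    push Not at hcon
    apply absurd _ (not_lt.mpr hcon)
    refine core1 (hyp_basis hA) (by omega) (by norm_num) ?_
    have h2 : (Kw (ind A) n : ℝ) ^ 2 ≤ 4 * n := by
      unfold t0 at hcon
      nlinarith
    have h3 : ((49 * 35000 : ℝ)) ^ 2 ≤ n := by
      have : (n1 : ℝ) ≤ n := by exact_mod_cast (by omega : n1 ≤ n)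
      linarith
    have h4 : 49 * 35000 * (Kw (ind A) n : ℝ) ≤ 2 * n := by
      apply le_of_sq_le_sq _ (by positivity)
      nlinarith [sq_nonneg (Kw (ind A) n : ℝ)]
    linarith
  have h2 : (Kw (ind A) n : ℝ) ≤ A.card := by exact_mod_cast Kw_ind A n
  have h3 : (Kw (ind A) n : ℝ) ^ 2 ≤ (A.card : ℝ) ^ 2 :=
    pow_le_pow_left₀ (Nat.cast_nonneg _) h2 2
  unfold t0 at h1
  linarith

end Run7.h409.Nz
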