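import Pool.Agent.Run7.h409.Nz.Step

/-!
# Nonzero digits of quadratic irrationals
-/

set_option autoImplicit false
set_option linter.unusedSectionVars false

open Finset

namespace Run7.h409.Nz

open Run7.h409.Dig
open Pool.Agent.H394R2.Ones (x K T r ep S T_succ T_pos T_le x_zero ep_nonneg ep_lt K_mono exc
  S_succ B_succ r_parity)
open Pool.Agent.H820R3.DG

lemma log_sq (n : ℕ) : (Nat.log 2 (n + 1) : ℝ) ^ 2 ≤ 4 * ((n : ℝ) + 1) := by
  set k := Nat.log 2 (n + 1) with hk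
  have h1 : 2 ^ k ≤ n + 1 := Nat.pow_log_le_self 2 (by omega)
  have h2 : k / 2 < 2 ^ (k / 2) := Nat.lt_two_pow_self
  have h3 : k ≤ 2 * 2 ^ (k / 2) := by omega
  have h4 : 2 ^ (k / 2) * 2 ^ (k / 2) ≤ 2 ^ k := by
    rw [← pow_add]
    exact Nat.pow_le_pow_right (by norm_num) (by omega)
  have h5 : k ^ 2 ≤ 4 * (n + 1) := by
    calc k ^ 2 ≤ (2 * 2 ^ (k / 2)) ^ 2 := Nat.pow_le_pow_left h3 2
      _ = 4 * (2 ^ (k / 2) * 2 ^ (k / 2)) := by ring
      _ ≤ 4 * (n + 1) := by omega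
  exact_mod_cast h5

lemma arith (X : ℝ) (hX : 0 < X) (C : ℝ) (hC : 0 ≤ C) (J0 : ℕ) :
    ∃ n0 : ℕ, ∀ n : ℕ, n0 ≤ n → ∀ N ex : ℝ, 0 ≤ N → t0 * N ^ 2 ≤ X * n →
      ex ≤ C * (N + 1) + n / 10000000 →
      49 * N + X * (49 * ex + 1864 * ((Nat.log 2 (n + 1) : ℝ) + J0) + 49) ≤ X * n / 35000 := by
  have ht0 : (0 : ℝ) < t0 := by norm_num [t0]
  set C' : ℝ := 49 + X * (49 * C + 1864 * ((J0 : ℝ) + 1) + 49) with hC'
  have hC'0 : 0 < C' := by positivity
  set M : ℝ := 3 * (X / t0 + 9) with hM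
  have hM0 : 0 < M := by positivity
  obtain ⟨n1, hn1⟩ := exists_nat_ge (C' ^ 2 * M / (X / 50000) ^ 2)
  refine ⟨n1 + 1, fun n hn N ex hN hcon hex => ?_⟩
  set l : ℝ := (Nat.log 2 (n + 1) : ℝ) with hl
  have hl0 : 0 ≤ l := Nat.cast_nonneg _
  have hl2 : l ^ 2 ≤ 4 * ((n : ℝ) + 1) := log_sq n
  have hn1' : (1 : ℝ) ≤ n := by exact_mod_cast (by omega : 1 ≤ n)
  have hn2 : C' ^ 2 * M ≤ (X / 50000) ^ 2 * n := by
    rw [div_le_iff₀ (by positivity)] at hn1
    have : (n1 : ℝ) ≤ n := by exact_mod_cast (by omega : n1 ≤ n)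
    have h0 : 0 ≤ (X / 50000) ^ 2 := sq_nonneg _
    nlinarith
  have hN2 : N ^ 2 ≤ X / t0 * n := by
    rw [div_mul_eq_mul_div, le_div_iff₀ ht0]
    linarith
  have h1 : (N + 1 + l) ^ 2 ≤ M * n := by
    rw [hM]
    nlinarith [sq_nonneg (N - 1), sq_nonneg (N - l), sq_nonneg (1 - l)]
  have h2 : C' * (N + 1 + l) ≤ X / 50000 * n := by
    apply le_of_sq_le_sq _ (by positivity)
    calc (C' * (N + 1 + l)) ^ 2 = C' ^ 2 * (N + 1 + l) ^ 2 := by ring
      _ ≤ C' ^ 2 * (M * n) := mul_le_mul_of_nonneg_left h1 (sq_nonneg _)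
      _ = C' ^ 2 * M * n := by ring
      _ ≤ (X / 50000) ^ 2 * n * n := mul_le_mul_of_nonneg_right hn2 (by positivity)
      _ = (X / 50000 * n) ^ 2 := by ring
  have h3 : 49 * N + X * (49 * (C * (N + 1)) + 1864 * (l + J0) + 49) ≤ C' * (N + 1 + l) := by
    have hJ : (0 : ℝ) ≤ J0 := Nat.cast_nonneg _
    have e : C' * (N + 1 + l) - (49 * N + X * (49 * (C * (N + 1)) + 1864 * (l + J0) + 49)) =
        49 * (1 + l) + X * (49 * C * l + 1864 * (J0 * N + J0 * l + N + 1) + 49 * (N + l)) := by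
      rw [hC']; ring
    have : 0 ≤ 49 * (1 + l) + X * (49 * C * l + 1864 * (J0 * N + J0 * l + N + 1) +
        49 * (N + l)) := by positivity
    linarith
  have h4 : X * (49 * ex) ≤ X * (49 * (C * (N + 1)) + 49 * (n / 10000000)) := by
    apply mul_le_mul_of_nonneg_left _ hX.le
    linarith
  have h5 : X * (49 * ((n : ℝ) / 10000000)) = X * n * (49 / 10000000) := by ring
  have hXn : 0 < X * n := by positivity
  nlinarith

open Classical in
/-- **The eventual inequality**, uniformly in the base. -/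
theorem nz_ev (C : ℝ) (hC : 0 ≤ C) (J0 L : ℕ) (hL : 1 ≤ L) : ∃ n0 : ℕ, ∀ n : ℕ, n0 ≤ n →
    ∀ (b : ℕ) (y θ : ℝ), 2 ≤ b → 0 < y → y < 1 → 0 < θ → 1 ≤ θ * 2 ^ J0 →
    2 * ((b : ℝ) - 1) ^ 2 ≤ θ * b * ((b : ℝ) ^ L - 1) →
    (((range n).filter (fun m => T b y m < θ)).card : ℝ) ≤
      C * (Kw (nz b y) n + 1) + n / 10000000 →
    2 / (L : ℝ) * n < t0 * (Kw (nz b y) n : ℝ) ^ 2 := by
  have hLR : (1 : ℝ) ≤ L := by exact_mod_cast hL
  obtain ⟨n1, h1⟩ := arith (2 / L) (by positivity) C hC (J0 + 1)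
  refine ⟨n1 + 20000000, fun n hn b y θ hb hy0 hy1 hθ0 hJ hθ hex => ?_⟩
  by_contra hcon
  push Not at hcon
  apply absurd _ (not_lt.mpr hcon)
  have hbR : (2 : ℝ) ≤ b := by exact_mod_cast hb
  have h2 := h1 n (by omega) (Kw (nz b y) n) _ (Nat.cast_nonneg _) hcon hex
  refine nz_one hb hy0 hy1 hL hθ0 hθ (km := Nat.log 2 (n + 1) + (J0 + 1)) (by omega) ?_ le_rfl
    (by push_cast at h2 ⊢; exact h2)
  have h3 : n + 1 < 2 ^ (Nat.log 2 (n + 1) + 1) := Nat.lt_pow_succ_log_self (by norm_num) _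
  have h4 : ((n : ℝ) + 1) < 2 ^ (Nat.log 2 (n + 1) + 1) := by exact_mod_cast h3
  have h5 : (2 : ℝ) ^ (Nat.log 2 (n + 1) + 1 + J0) ≤ (b : ℝ) ^ (Nat.log 2 (n + 1) + 1 + J0) :=
    pow_le_pow_left₀ (by norm_num) hbR _
  have h6 : (n : ℝ) + 1 < θ * (b : ℝ) ^ (Nat.log 2 (n + 1) + 1 + J0) := by
    have e1 : (n : ℝ) + 1 < θ * 2 ^ J0 * 2 ^ (Nat.log 2 (n + 1) + 1) := by
      have : (0 : ℝ) < 2 ^ (Nat.log 2 (n + 1) + 1) := by positivity
      nlinarith
    have e2 : θ * 2 ^ J0 * 2 ^ (Nat.log 2 (n + 1) + 1) =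
        θ * (2 : ℝ) ^ (Nat.log 2 (n + 1) + 1 + J0) := by rw [pow_add _ (_ + 1)]; ring
    have e3 := mul_le_mul_of_nonneg_left h5 hθ0.le
    linarith
  have h7 : θ * (b : ℝ) ^ (Nat.log 2 (n + 1) + (J0 + 1) + 1) =
      b * (θ * (b : ℝ) ^ (Nat.log 2 (n + 1) + 1 + J0)) := by
    rw [pow_succ, show Nat.log 2 (n + 1) + (J0 + 1) = Nat.log 2 (n + 1) + 1 + J0 by ring]; ring
  rw [h7]
  exact mul_lt_mul_of_pos_left h6 (by linarith)

/-! ### counting exceptional positions -/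

open Classical in
lemma near_count (w : ℕ → ℕ) (hw : ∀ k, w k ≤ 1) (s n : ℕ) :
    ((range n).filter (fun m => ∃ j, j < s ∧ w (m + 1 + j) ≠ 0)).card ≤ s * (Kw w n + s) := by
  rw [card_filter]
  have h1 : ∀ m ∈ range n, (if ∃ j, j < s ∧ w (m + 1 + j) ≠ 0 then 1 else 0) ≤
      ∑ j ∈ range s, w (m + 1 + j) := by
    intro m _
    split_ifs with h
    · obtain ⟨j, hj, hj'⟩ := h
      calc 1 ≤ w (m + 1 + j) := by omega
        _ ≤ _ := single_le_sum (f := fun j => w (m + 1 + j)) (fun i _ => Nat.zero_le _)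
          (mem_range.mpr hj)
    · exact Nat.zero_le _
  refine (sum_le_sum h1).trans ?_
  rw [sum_comm]
  have h2 : ∀ j ∈ range s, ∑ m ∈ range n, w (m + 1 + j) ≤ Kw w n + s := by
    intro j hj
    have hj' := mem_range.mp hj
    have h3 : ∑ m ∈ range n, w (m + 1 + j) ≤ ∑ i ∈ range (n + 1 + j), w i := by
      have e1 : ∑ m ∈ range n, w (m + 1 + j) = ∑ i ∈ Ico (0 + (1 + j)) (n + (1 + j)), w i := by
        rw [← sum_Ico_add' w 0 n (1 + j), range_eq_Ico]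
        simp only [add_assoc]
      rw [e1]
      apply sum_le_sum_of_subset
      intro i hi
      rw [mem_Ico] at hi
      exact mem_range.mpr (by omega)
    refine h3.trans ?_
    have h4 : ∀ t : ℕ, ∑ i ∈ range (n + 1 + t), w i ≤ Kw w n + t := by
      intro t
      induction t with
      | zero => rfl
      | succ t ih =>
        rw [← add_assoc, sum_range_succ]
        have := hw (n + 1 + t)
        omega
    exact (h4 j).trans (by omega)
  calc ∑ j ∈ range s, ∑ m ∈ range n, w (m + 1 + j) ≤ ∑ j ∈ range s, (Kw w n + s) :=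
        sum_le_sum h2
    _ = s * (Kw w n + s) := by simp

lemma half_count (w : ℕ → ℕ) (n : ℕ) :
    ((range n).filter (fun m => hf w m ≠ 0)).card ≤ Kw w n := by
  rw [card_filter]
  refine (sum_le_sum fun m _ => ?_).trans
    ((sum_le_sum_of_subset (range_mono (Nat.le_succ n))).trans (hf_sum w n))
  split_ifs with h
  · omega
  · exact Nat.zero_le _

lemma self_count (w : ℕ → ℕ) (n : ℕ) :
    ((range n).filter (fun m => w m ≠ 0)).card ≤ Kw w n := by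
  rw [card_filter]
  unfold Kw
  refine (sum_le_sum fun m _ => ?_).trans (sum_le_sum_of_subset (range_mono (Nat.le_succ n)))
  split_ifs with h
  · omega
  · exact Nat.zero_le _

end Run7.h409.Nz
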