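import Pool.Agent.Run7.h409.Dig.Core

/-!
# The main inequality for general weights
-/

set_option autoImplicit false
set_option linter.unusedSectionVars false

open Finset

namespace Run7.h409.Nz

open Run7.h409.Dig
open Pool.Agent.H394R2.Ones (pair_sum)

/-- number of elements up to `n` -/
def Kw (w : ℕ → ℕ) (n : ℕ) : ℕ := ∑ i ∈ range (n + 1), w i

/-- exponential sums -/
noncomputable def Fw (w : ℕ → ℕ) (n : ℕ) (z : ℂ) : ℂ := ∑ i ∈ range (n + 1), (w i : ℂ) * z ^ i

/-- number of representations -/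
def rw' (w : ℕ → ℕ) (m : ℕ) : ℕ := ∑ p ∈ antidiagonal m, w p.1 * w p.2

variable {w : ℕ → ℕ}

lemma lin_eval (n J : ℕ) (c : ℝ) (α β : ℕ → ℝ) :
    ∑ i ∈ range (n + 1), (w i : ℝ) * tp n J c α β i =
      c * Kw w n + ∑ k ∈ range J, (α k * (Fw w n (om n ^ (k + 1))).re +
        β k * (Fw w n (om n ^ (k + 1))).im) := by
  unfold tp
  have h1 : ∀ i, (w i : ℝ) * (c + ∑ k ∈ range J, (α k * ((om n ^ i) ^ (k + 1)).re +
      β k * ((om n ^ i) ^ (k + 1)).im)) = c * w i + ∑ k ∈ range J,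
        (α k * ((w i : ℂ) * (om n ^ (k + 1)) ^ i).re +
        β k * ((w i : ℂ) * (om n ^ (k + 1)) ^ i).im) := by
    intro i
    rw [mul_add, mul_sum]
    congr 1
    · ring
    · refine sum_congr rfl fun k _ => ?_
      rw [← pow_mul, ← pow_mul, mul_comm i (k + 1)]
      generalize om n ^ ((k + 1) * i) = z
      simp only [Complex.mul_re, Complex.mul_im, Complex.natCast_re, Complex.natCast_im]
      ring
  simp only [h1]
  rw [sum_add_distrib, ← mul_sum, sum_comm]
  congr 1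
  · unfold Kw
    push_cast
    rfl
  · refine sum_congr rfl fun k _ => ?_
    rw [sum_add_distrib, ← mul_sum, ← mul_sum]
    unfold Fw
    rw [Complex.re_sum, Complex.im_sum]

lemma pair_eval (n J : ℕ) (c : ℝ) (α β : ℕ → ℝ) :
    ∑ p ∈ range (n + 1) ×ˢ range (n + 1), ((w p.1 : ℝ) * w p.2) *
        tp n J c α β (p.1 + p.2) =
      c * (Kw w n : ℝ) ^ 2 + ∑ k ∈ range J, (α k * ((Fw w n (om n ^ (k + 1))) ^ 2).re +
        β k * ((Fw w n (om n ^ (k + 1))) ^ 2).im) := by
  unfold tp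
  have h1 : ∀ p : ℕ × ℕ, ((w p.1 : ℝ) * w p.2) * (c + ∑ k ∈ range J,
      (α k * ((om n ^ (p.1 + p.2)) ^ (k + 1)).re + β k * ((om n ^ (p.1 + p.2)) ^ (k + 1)).im)) =
      c * (w p.1 * w p.2) + ∑ k ∈ range J,
        (α k * (((w p.1 : ℂ) * (om n ^ (k + 1)) ^ p.1) *
          ((w p.2 : ℂ) * (om n ^ (k + 1)) ^ p.2)).re +
        β k * (((w p.1 : ℂ) * (om n ^ (k + 1)) ^ p.1) *
          ((w p.2 : ℂ) * (om n ^ (k + 1)) ^ p.2)).im) := by
    intro p
    rw [mul_add, mul_sum]
    congr 1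
    · ring
    · refine sum_congr rfl fun k _ => ?_
      have e : ((w p.1 : ℂ) * (om n ^ (k + 1)) ^ p.1) *
          ((w p.2 : ℂ) * (om n ^ (k + 1)) ^ p.2) =
          (((w p.1 * w p.2 : ℝ)) : ℂ) * (om n ^ (p.1 + p.2)) ^ (k + 1) := by
        rw [← pow_mul, ← pow_mul, ← pow_mul,
          show (p.1 + p.2) * (k + 1) = (k + 1) * p.1 + (k + 1) * p.2 by ring, pow_add]
        push_cast
        ring
      rw [e]
      generalize (om n ^ (p.1 + p.2)) ^ (k + 1) = z
      rw [Complex.re_ofReal_mul, Complex.im_ofReal_mul]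
      ring
  simp only [h1]
  rw [sum_add_distrib, ← mul_sum, sum_comm]
  congr 1
  · unfold Kw
    push_cast
    rw [sq, sum_mul_sum, sum_product]
  · refine sum_congr rfl fun k _ => ?_
    rw [sum_add_distrib, ← mul_sum, ← mul_sum]
    have h2 : Fw w n (om n ^ (k + 1)) ^ 2 = ∑ p ∈ range (n + 1) ×ˢ range (n + 1),
        ((w p.1 : ℂ) * (om n ^ (k + 1)) ^ p.1) * ((w p.2 : ℂ) * (om n ^ (k + 1)) ^ p.2) := by
      unfold Fw
      rw [sq, sum_mul_sum, sum_product]
    rw [h2, Complex.re_sum, Complex.im_sum]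

/-- dropping the pairs with large sum -/
lemma pair_lower (n J : ℕ) (c : ℝ) (α β : ℕ → ℝ) (hg : ∀ m, 0 ≤ tp n J c α β m) :
    ∑ m ∈ range (n + 1), (rw' w m : ℝ) * tp n J c α β m ≤
      c * (Kw w n : ℝ) ^ 2 + ∑ k ∈ range J, (α k * ((Fw w n (om n ^ (k + 1))) ^ 2).re +
        β k * ((Fw w n (om n ^ (k + 1))) ^ 2).im) := by
  rw [← pair_eval, pair_sum n (fun i j => ((w i : ℝ) * w j) * tp n J c α β (i + j))]
  have h1 : 0 ≤ ∑ p ∈ (range (n + 1) ×ˢ range (n + 1)).filter (fun p => ¬ p.1 + p.2 ≤ n),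
      ((w p.1 : ℝ) * w p.2) * tp n J c α β (p.1 + p.2) :=
    sum_nonneg fun p _ => mul_nonneg (by positivity) (hg _)
  have h2 : ∑ m ∈ range (n + 1), (rw' w m : ℝ) * tp n J c α β m =
      ∑ m ∈ range (n + 1), ∑ p ∈ antidiagonal m,
        ((w p.1 : ℝ) * w p.2) * tp n J c α β (p.1 + p.2) := by
    refine sum_congr rfl fun m _ => ?_
    unfold rw'
    push_cast
    rw [sum_mul]
    refine sum_congr rfl fun p hp => ?_
    rw [HasAntidiagonal.mem_antidiagonal] at hp
    rw [hp]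
  rw [h2]
  linarith

/-- real part of the `k`-th moment -/
noncomputable def mA (w : ℕ → ℕ) (n k : ℕ) : ℝ := (Fw w n (om n ^ k)).re / Kw w n
/-- imaginary part of the `k`-th moment -/
noncomputable def mB (w : ℕ → ℕ) (n k : ℕ) : ℝ := (Fw w n (om n ^ k)).im / Kw w n

/-- the hypothesis: `∑ r(m) g(m) ≥ X ∑ g(m)` up to an error, for trigonometric polynomials `g` -/
def Hyp (w : ℕ → ℕ) (n : ℕ) (X E : ℝ) : Prop :=
  ∀ (c : ℝ) (α β : ℕ → ℝ), 0 ≤ c → (∀ k, |α k| ≤ 2 * c) → (∀ k, |β k| ≤ 2 * c) →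
    (∀ m, 0 ≤ tp n 12 c α β m) →
    X * ∑ m ∈ range n, tp n 12 c α β m - c * E ≤
      ∑ m ∈ range (n + 1), (rw' w m : ℝ) * tp n 12 c α β m

lemma main_ineq {n : ℕ} {X E : ℝ} (H : Hyp w n X E) (hn : 96 ≤ n) (hK : 0 < Kw w n)
    (hX : t0 * (Kw w n : ℝ) ^ 2 ≤ X * n) (ρ : ℝ)
    (hErr : 192 * t0 * (Kw w n : ℝ) ^ 2 / n + E ≤ ρ * (Kw w n : ℝ) ^ 2) (c : ℝ) (hc : 0 ≤ c)
    (α β : ℕ → ℝ)
    (hα : ∀ k, |α k| ≤ 2 * c) (hβ : ∀ k, |β k| ≤ 2 * c) (hg : ∀ m, 0 ≤ tp n 12 c α β m) :
    0 ≤ c * (1 - t0 + ρ) + ∑ k ∈ range 12,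
      (α k * (mA w n (k + 1) ^ 2 - mB w n (k + 1) ^ 2) +
        β k * (2 * mA w n (k + 1) * mB w n (k + 1) - t0 * lam (k + 1))) := by
  have hn0 : (0 : ℝ) < n := by exact_mod_cast (by omega : 0 < n)
  have hK0 : (0 : ℝ) < Kw w n := by exact_mod_cast hK
  have h1 := (H c α β hc hα hβ hg).trans (pair_lower n 12 c α β hg)
  have h2 := tp_sum_lower 12 (by omega) c hc α β hα hβ (n := n)
  set S := ∑ m ∈ range n, tp n 12 c α β m with hS
  have hS0 : 0 ≤ S := sum_nonneg fun m _ => hg m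
  set L := ∑ k ∈ range 12, β k * lam (k + 1) with hL
  set Kn : ℝ := (Kw w n : ℝ) with hKn
  have ht0 : (0 : ℝ) < t0 := by norm_num [t0]
  have h3 : t0 * Kn ^ 2 * (c + L) - c * (192 * t0 * Kn ^ 2 / n) ≤ X * S := by
    have e1 : t0 * Kn ^ 2 / n * S ≤ X * S := by
      apply mul_le_mul_of_nonneg_right _ hS0
      rw [div_le_iff₀ hn0]
      exact hX
    have e2 := mul_le_mul_of_nonneg_left h2 (by positivity : 0 ≤ t0 * Kn ^ 2 / n)
    have e3 : t0 * Kn ^ 2 / n * (n * (c + L) - 16 * ((12 : ℕ) : ℝ) * c) =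
        t0 * Kn ^ 2 * (c + L) - c * (192 * t0 * Kn ^ 2 / n) := by
      field_simp
      push_cast
      ring
    linarith
  have h4 : ∑ k ∈ range 12, (α k * ((Fw w n (om n ^ (k + 1))) ^ 2).re +
        β k * ((Fw w n (om n ^ (k + 1))) ^ 2).im) = Kn ^ 2 * ∑ k ∈ range 12,
        (α k * (mA w n (k + 1) ^ 2 - mB w n (k + 1) ^ 2) +
        β k * (2 * mA w n (k + 1) * mB w n (k + 1))) := by
    rw [mul_sum]
    refine sum_congr rfl fun k _ => ?_
    unfold mA mB
    rw [← hKn]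
    generalize Fw w n (om n ^ (k + 1)) = z
    rw [sq, Complex.mul_re, Complex.mul_im]
    field_simp
    ring
  have h5 : ∑ k ∈ range 12, (α k * (mA w n (k + 1) ^ 2 - mB w n (k + 1) ^ 2) +
        β k * (2 * mA w n (k + 1) * mB w n (k + 1) - t0 * lam (k + 1))) =
        ∑ k ∈ range 12, (α k * (mA w n (k + 1) ^ 2 - mB w n (k + 1) ^ 2) +
        β k * (2 * mA w n (k + 1) * mB w n (k + 1))) - t0 * L := by
    rw [hL, mul_sum, ← sum_sub_distrib]
    refine sum_congr rfl fun k _ => ?_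
    ring
  rw [h5]
  rw [h4] at h1
  set Z := ∑ k ∈ range 12, (α k * (mA w n (k + 1) ^ 2 - mB w n (k + 1) ^ 2) +
        β k * (2 * mA w n (k + 1) * mB w n (k + 1))) with hZ
  have h6 := mul_le_mul_of_nonneg_left hErr hc
  have h7 : 0 ≤ Kn ^ 2 * (c * (1 - t0 + ρ) + (Z - t0 * L)) := by linarith
  exact nonneg_of_mul_nonneg_right h7 (by positivity)

lemma f0_aux (n : ℕ) : 0 ≤ mB w n 1 := by
  unfold mB
  apply div_nonneg _ (Nat.cast_nonneg _)
  have h := lin_eval (w := w) n 1 0 (fun _ => 0) (fun _ => 1)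
  simp only [zero_mul, zero_add, sum_range_one, one_mul] at h
  rw [← h]
  refine sum_nonneg fun i hi => mul_nonneg (Nat.cast_nonneg _) ?_
  unfold tp
  simp only [zero_mul, zero_add, sum_range_one, one_mul, pow_one]
  exact om_im_nonneg (by have := mem_range.mp hi; omega)

lemma f1_aux (n J : ℕ) (hK : 0 < Kw w n) (h g : List (ℤ × ℤ)) (hh : h.length ≤ J + 1)
    (hg : g.length ≤ J) :
    0 ≤ ((cr h 0 - ci g 1 : ℤ) : ℝ) + ∑ i ∈ range J,
      (((2 * cr h (i + 1) + ci g i - ci g (i + 2) : ℤ) : ℝ) * mA w n (i + 1) +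
        ((-2 * ci h (i + 1) + cr g i - cr g (i + 2) : ℤ) : ℝ) * mB w n (i + 1)) := by
  have hK0 : (0 : ℝ) < Kw w n := by exact_mod_cast hK
  set c : ℝ := ((cr h 0 - ci g 1 : ℤ) : ℝ) with hc
  set α : ℕ → ℝ := fun i => ((2 * cr h (i + 1) + ci g i - ci g (i + 2) : ℤ) : ℝ) with hα
  set β : ℕ → ℝ := fun i => ((-2 * ci h (i + 1) + cr g i - cr g (i + 2) : ℤ) : ℝ) with hβ
  have e1 : ∀ i, tp n J c α β i = Complex.normSq (hv (om n ^ i) h) +
      (om n ^ i).im * Complex.normSq (hv (om n ^ i) g) := by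
    intro i
    rw [ac _ (normSq_om_pow n i) h J hh, ac_sin _ (normSq_om_pow n i) g J hg]
    unfold tp
    have e2 : ∑ k ∈ range J, (α k * ((om n ^ i) ^ (k + 1)).re + β k * ((om n ^ i) ^ (k + 1)).im) =
        ∑ k ∈ range J, (2 * (cr h (k + 1) : ℝ) * ((om n ^ i) ^ (k + 1)).re -
          2 * (ci h (k + 1) : ℝ) * ((om n ^ i) ^ (k + 1)).im) +
        ∑ k ∈ range J, (((ci g k - ci g (k + 2) : ℤ) : ℝ) * ((om n ^ i) ^ (k + 1)).re +
          ((cr g k - cr g (k + 2) : ℤ) : ℝ) * ((om n ^ i) ^ (k + 1)).im) := by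
      rw [← sum_add_distrib]
      refine sum_congr rfl fun k _ => ?_
      rw [hα, hβ]
      push_cast
      ring
    rw [e2, hc]
    push_cast
    ring
  have e3 := lin_eval (w := w) n J c α β
  have e4 : 0 ≤ ∑ i ∈ range (n + 1), (w i : ℝ) * tp n J c α β i := by
    refine sum_nonneg fun i hi => mul_nonneg (Nat.cast_nonneg _) ?_
    rw [e1]
    have h1 := Complex.normSq_nonneg (hv (om n ^ i) h)
    have h2 := mul_nonneg (om_im_nonneg (n := n) (m := i) (by have := mem_range.mp hi; omega))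
      (Complex.normSq_nonneg (hv (om n ^ i) g))
    linarith
  rw [e3] at e4
  have e5 : c * (Kw w n : ℝ) + ∑ k ∈ range J, (α k * (Fw w n (om n ^ (k + 1))).re +
        β k * (Fw w n (om n ^ (k + 1))).im) = Kw w n * (c + ∑ i ∈ range J,
      (α i * mA w n (i + 1) + β i * mB w n (i + 1))) := by
    rw [mul_add, mul_sum, mul_comm c]
    congr 1
    refine sum_congr rfl fun k _ => ?_
    unfold mA mB
    field_simp
  rw [e5] at e4
  exact nonneg_of_mul_nonneg_right e4 hK0

lemma feas {n : ℕ} {X E : ℝ} (H : Hyp w n X E) (hn : 96 ≤ n) (hK : 0 < Kw w n)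
    (hX : t0 * (Kw w n : ℝ) ^ 2 ≤ X * n)
    (hErr : 192 * t0 * (Kw w n : ℝ) ^ 2 / n + E ≤ 7 / 100000 * (Kw w n : ℝ) ^ 2) :
    Feas D12.par (mA w n) (mB w n) := by
  have hD6 : ((D : ℤ) : ℝ) = 1000000 := by norm_num [D]
  have hS : (D12.par.S : ℝ) = 134438 := by norm_num [D12.par]
  have hJ : D12.par.J = 12 := rfl
  have main := main_ineq H hn hK hX (7 / 100000) hErr
  refine ⟨f0_aux n, ?_, ?_, ?_⟩
  · intro h g hh hg
    rw [hJ] at hh hg ⊢
    exact f1_aux n 12 hK h g hh hg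
  · intro q hq
    rw [hJ] at hq ⊢
    set c : ℝ := (cr q 0 : ℝ) with hc
    have hc0 : 0 ≤ c := by
      have := (abs_nonneg _).trans (cr_abs q 0)
      rw [hc]
      exact_mod_cast this
    have hα : ∀ k, |2 * (cr q (k + 1) : ℝ)| ≤ 2 * c := by
      intro k
      rw [abs_mul, abs_two]
      have : |(cr q (k + 1) : ℝ)| ≤ c := by rw [hc]; exact_mod_cast cr_abs q (k + 1)
      linarith
    have hβ : ∀ k, |-(2 * (ci q (k + 1) : ℝ))| ≤ 2 * c := by
      intro k
      rw [abs_neg, abs_mul, abs_two]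
      have : |(ci q (k + 1) : ℝ)| ≤ c := by rw [hc]; exact_mod_cast ci_abs q (k + 1)
      linarith
    have h1 := main c hc0 (fun k => 2 * (cr q (k + 1) : ℝ)) (fun k => -(2 * (ci q (k + 1) : ℝ)))
      hα hβ (by
        intro m
        have e : tp n 12 c (fun k => 2 * (cr q (k + 1) : ℝ)) (fun k => -(2 * (ci q (k + 1) : ℝ))) m
            = Complex.normSq (hv (om n ^ m) q) := by
          rw [ac _ (normSq_om_pow n m) q 12 hq]
          unfold tp
          rw [hc]
          congr 1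
          refine sum_congr rfl fun k _ => ?_
          ring
        rw [e]
        exact Complex.normSq_nonneg _)
    have h2 : ∀ k ∈ range 12, 1000000 * (2 * (cr q (k + 1) : ℝ) *
          (mA w n (k + 1) ^ 2 - mB w n (k + 1) ^ 2) + -(2 * (ci q (k + 1) : ℝ)) *
          (2 * mA w n (k + 1) * mB w n (k + 1) - t0 * lam (k + 1))) - 104 / 100 * c ≤
        2 * (cr q (k + 1) : ℝ) * (D * (mA w n (k + 1) ^ 2 - mB w n (k + 1) ^ 2)) -
        2 * (ci q (k + 1) : ℝ) * (D * (2 * mA w n (k + 1) * mB w n (k + 1)) -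
          D12.par.t (k + 1)) := by
      intro k hk
      have hk' := mem_range.mp hk
      have e1 := num (k + 1) (by omega) (by omega)
      have e2 : |(ci q (k + 1) : ℝ)| ≤ c := by rw [hc]; exact_mod_cast ci_abs q (k + 1)
      have e3 : |(ci q (k + 1) : ℝ) * ((D12.par.t (k + 1) : ℝ) - 1000000 * (t0 * lam (k + 1)))| ≤
          c * (52 / 100) := by
        rw [abs_mul]
        exact mul_le_mul e2 e1 (abs_nonneg _) hc0
      have e4 := (abs_le.mp e3).1
      rw [hD6]
      linarith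
    have h3 := sum_le_sum h2
    rw [sum_sub_distrib, ← mul_sum, sum_const, card_range, nsmul_eq_mul] at h3
    push_cast at h3 ⊢
    rw [hS]
    have h4 : 1000000 * (c * (1 - t0 + 7 / 100000)) + 12 * (104 / 100 * c) ≤ c * 134438 := by
      unfold t0
      nlinarith
    linarith
  · intro k hk1 hk2
    rw [hJ] at hk2
    rw [hD6, hS]
    set A := mA w n k with hA
    set B := mB w n k with hB
    set X' : ℝ := 1000000 * (A ^ 2 - B ^ 2) with hXd
    set Y : ℝ := 1000000 * (2 * A * B) - D12.par.t k with hYd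
    have hunit : ∀ u v : ℝ, u ^ 2 + v ^ 2 = 1 → u * X' + v * Y ≤ 134438 := by
      intro u v huv
      have hu : |u| ≤ 1 := by
        apply abs_le_of_sq_le_sq' _ (by norm_num) |> abs_le.mpr
        nlinarith [sq_nonneg v]
      have hv' : |v| ≤ 1 := by
        apply abs_le_of_sq_le_sq' _ (by norm_num) |> abs_le.mpr
        nlinarith [sq_nonneg u]
      obtain ⟨j, hj⟩ : ∃ j, k = j + 1 := ⟨k - 1, by omega⟩
      have hjJ : j ∈ range 12 := mem_range.mpr (by omega)
      have h1 := main 1 zero_le_one (fun i => if i = j then -u else 0)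
        (fun i => if i = j then -v else 0)
        (by intro i; split_ifs
            · rw [abs_neg]; linarith
            · simp)
        (by intro i; split_ifs
            · rw [abs_neg]; linarith
            · simp)
        (by
          intro m
          unfold tp
          have e1 : ∑ i ∈ range 12, ((if i = j then -u else 0) * ((om n ^ m) ^ (i + 1)).re +
              (if i = j then -v else 0) * ((om n ^ m) ^ (i + 1)).im) =
              -u * ((om n ^ m) ^ (j + 1)).re + -v * ((om n ^ m) ^ (j + 1)).im := by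
            rw [sum_eq_single_of_mem j hjJ]
            · simp
            · intro i _ hij
              simp [hij]
          rw [e1]
          have e2 : Complex.normSq ((om n ^ m) ^ (j + 1)) = 1 := by
            rw [← pow_mul]; exact normSq_om_pow n _
          rw [Complex.normSq_apply] at e2
          nlinarith [sq_nonneg (u - ((om n ^ m) ^ (j + 1)).re),
            sq_nonneg (v - ((om n ^ m) ^ (j + 1)).im)])
      have e1 : ∑ i ∈ range 12, ((if i = j then -u else 0) *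
          (mA w n (i + 1) ^ 2 - mB w n (i + 1) ^ 2) + (if i = j then -v else 0) *
          (2 * mA w n (i + 1) * mB w n (i + 1) - t0 * lam (i + 1))) =
          -u * (A ^ 2 - B ^ 2) + -v * (2 * A * B - t0 * lam k) := by
        rw [sum_eq_single_of_mem j hjJ]
        · rw [hA, hB, hj]
          simp
        · intro i _ hij
          simp [hij]
      rw [e1] at h1
      have e2 := num k hk1 hk2
      have e3 : |v * ((D12.par.t k : ℝ) - 1000000 * (t0 * lam k))| ≤ 1 * (52 / 100) := by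
        rw [abs_mul]
        exact mul_le_mul hv' e2 (abs_nonneg _) zero_le_one
      have e4 := (abs_le.mp e3).1
      rw [hXd, hYd]
      unfold t0 at h1 e4
      linarith
    have hr : X' ^ 2 + Y ^ 2 ≤ 134438 ^ 2 := by
      rcases eq_or_ne (X' ^ 2 + Y ^ 2) 0 with h0 | h0
      · rw [h0]; norm_num
      · have hpos : 0 < X' ^ 2 + Y ^ 2 := lt_of_le_of_ne (by positivity) (Ne.symm h0)
        set r := Real.sqrt (X' ^ 2 + Y ^ 2) with hr
        have hr0 : 0 < r := Real.sqrt_pos.mpr hpos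
        have hr2 : r ^ 2 = X' ^ 2 + Y ^ 2 := Real.sq_sqrt hpos.le
        have h1 := hunit (X' / r) (Y / r) (by
          rw [div_pow, div_pow, ← add_div, ← hr2, div_self (by positivity)])
        have h2 : X' / r * X' + Y / r * Y = r := by
          field_simp
          linarith
        rw [h2] at h1
        rw [← hr2]
        exact pow_le_pow_left₀ hr0.le h1 2
    rw [hXd, hYd] at hr
    nlinarith

/-- **The main inequality**, for one `n` -/
theorem core1 {n : ℕ} {X E : ℝ} (H : Hyp w n X E) (hn : 20000000 ≤ n) (hX0 : 0 < X)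
    (hE : E ≤ X * n / 35000) : X * n < t0 * (Kw w n : ℝ) ^ 2 := by
  by_contra hcon
  push Not at hcon
  have hn0 : (20000000 : ℝ) ≤ n := by exact_mod_cast hn
  have hnpos : (0 : ℝ) < n := by linarith
  have hXn : 0 < X * n := by positivity
  have hlow := (H 1 (fun _ => 0) (fun _ => 0) zero_le_one (by intro k; simp) (by intro k; simp)
    (by intro m; unfold tp; simp)).trans (pair_lower n 12 1 (fun _ => 0) (fun _ => 0)
      (by intro m; unfold tp; simp))
  have e1 : ∑ m ∈ range n, tp n 12 1 (fun _ => 0) (fun _ => 0) m = n := by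
    unfold tp
    simp
  rw [e1] at hlow
  simp only [zero_mul, add_zero, sum_const_zero, one_mul] at hlow
  have hK2 : X * n * (999 / 1000) ≤ (Kw w n : ℝ) ^ 2 := by linarith
  have hKpos : 0 < Kw w n := by
    rcases Nat.eq_zero_or_pos (Kw w n) with h | h
    · rw [h] at hK2
      norm_num at hK2
      linarith
    · exact h
  have hErr : 192 * t0 * (Kw w n : ℝ) ^ 2 / n + E ≤ 7 / 100000 * (Kw w n : ℝ) ^ 2 := by
    have e3 : 192 * t0 * (Kw w n : ℝ) ^ 2 / n ≤ 1 / 100000 * (Kw w n : ℝ) ^ 2 := by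
      rw [div_le_iff₀ hnpos]
      unfold t0
      have : (Kw w n : ℝ) ^ 2 * 20000000 ≤ (Kw w n : ℝ) ^ 2 * n :=
        mul_le_mul_of_nonneg_left hn0 (sq_nonneg _)
      nlinarith [sq_nonneg (Kw w n : ℝ)]
    linarith
  exact sound (feas H (by omega) hKpos hcon hErr) D12.tree D12.tree_ok

end Run7.h409.Nz
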