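import Pool.Agent.Run7.h409.Nz.Gen

/-!
# The potential: from the step inequality to the main inequality
-/

set_option autoImplicit false
set_option linter.unusedSectionVars false

open Finset

namespace Run7.h409.Nz

open Run7.h409.Dig

/-! ### parity of the number of representations -/

lemma rw_parity (w : ℕ → ℕ) (m : ℕ) (h : rw' w m % 2 = 1) : m % 2 = 0 ∧ 1 ≤ w (m / 2) := by
  by_contra hcon
  have key : ∀ p ∈ antidiagonal m, (Prod.swap p) ∈ antidiagonal m := by
    intro p hp
    rw [HasAntidiagonal.mem_antidiagonal] at hp ⊢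
    simpa [add_comm] using hp
  have hz : ((rw' w m : ℕ) : ZMod 2) = 0 := by
    unfold rw'
    rw [Nat.cast_sum]
    refine sum_involution (fun p _ => Prod.swap p) ?_ ?_ key ?_
    · intro p _
      simp only [Prod.fst_swap, Prod.snd_swap]
      push_cast
      rw [mul_comm ((w p.2 : ℕ) : ZMod 2)]
      exact CharTwo.add_self_eq_zero _
    · intro p hp hne heq
      rw [HasAntidiagonal.mem_antidiagonal] at hp
      have h1 : p.2 = p.1 := by
        have := congrArg Prod.fst heq
        simpa using this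
      have h2 : m % 2 = 0 := by omega
      have h3 : m / 2 = p.1 := by omega
      apply hcon
      refine ⟨h2, ?_⟩
      rw [h3]
      by_contra h4
      have h5 : w p.1 = 0 := by omega
      apply hne
      rw [h5]; simp
    · intro p _
      simp
  rw [ZMod.natCast_eq_zero_iff] at hz
  omega

/-- half positions -/
def hf (w : ℕ → ℕ) (m : ℕ) : ℕ := if m % 2 = 0 then w (m / 2) else 0

lemma hf_two (w : ℕ → ℕ) (n : ℕ) :
    ∑ m ∈ range (2 * n), hf w m = ∑ i ∈ range n, w i := by
  induction n with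
  | zero => simp
  | succ n ih =>
    rw [show 2 * (n + 1) = 2 * n + 1 + 1 by ring, sum_range_succ, sum_range_succ, ih,
      sum_range_succ]
    have h1 : hf w (2 * n) = w n := by
      unfold hf
      rw [if_pos (by omega)]
      congr 1; omega
    have h2 : hf w (2 * n + 1) = 0 := by
      unfold hf
      rw [if_neg (by omega)]
    rw [h1, h2, add_zero]

lemma hf_sum (w : ℕ → ℕ) (n : ℕ) : ∑ m ∈ range (n + 1), hf w m ≤ Kw w n := by
  calc ∑ m ∈ range (n + 1), hf w m ≤ ∑ m ∈ range (2 * (n + 1)), hf w m :=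
        sum_le_sum_of_subset (range_mono (by omega))
    _ = ∑ i ∈ range (n + 1), w i := hf_two w (n + 1)
    _ = Kw w n := rfl

lemma mid_sum (w : ℕ → ℕ) (n : ℕ) : ∑ m ∈ range (n + 1), rw' w m % 2 ≤ Kw w n := by
  refine (sum_le_sum fun m _ => ?_).trans (hf_sum w n)
  unfold hf
  rcases Nat.mod_two_eq_zero_or_one (rw' w m) with h | h
  · rw [h]; exact Nat.zero_le _
  · obtain ⟨h1, h2⟩ := rw_parity w m h
    rw [h, if_pos h1]
    exact h2

/-! ### the main inequality from the step inequality -/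

/-- half the number of representations, rounded up -/
def pp (w : ℕ → ℕ) (m : ℕ) : ℕ := (rw' w m + 1) / 2

theorem hyp_of_step {w : ℕ → ℕ} {n L km ex : ℕ} (hn : 0 < n) (hL : 1 ≤ L) {lev e : ℕ → ℕ}
    (hstep : ∀ m, m < n → 1 + lev m ≤ lev (m + 1) + L * pp w (m + 1) + e m)
    (hlev : ∀ m, m ≤ n → lev m ≤ km) (hex : ∑ m ∈ range n, e m ≤ ex) :
    Hyp w n (2 / L) (49 * Kw w n + 2 / L * (49 * ex + 1864 * km + 49)) := by
  intro c α β hc hα hβ hg
  set t := tp n 12 c α β with ht
  have hLR : (1 : ℝ) ≤ L := by exact_mod_cast hL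
  have hL0 : (0 : ℝ) < L := by linarith
  have hn0 : (0 : ℝ) < n := by exact_mod_cast hn
  have htle : ∀ m, t m ≤ 49 * c := by
    intro m
    have := tp_le n 12 c α β hα hβ m
    push_cast at this
    rw [ht]
    linarith
  have hdiff : ∀ m, |t (m + 1) - t m| ≤ c * 1815 / n := by
    intro m
    have h1 := tp_diff hn 12 c hc α β hα hβ m
    rw [ht]
    refine h1.trans ?_
    apply div_le_div_of_nonneg_right _ hn0.le
    apply mul_le_mul_of_nonneg_left _ hc
    have := Real.pi_lt_d2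
    push_cast
    linarith
  -- Abel summation
  have habel : ∀ N : ℕ, ∑ m ∈ range N, ((lev m : ℝ) - lev (m + 1)) * t (m + 1) =
      lev 0 * t 0 - lev N * t N + ∑ m ∈ range N, (lev m : ℝ) * (t (m + 1) - t m) := by
    intro N
    induction N with
    | zero => simp
    | succ N ih =>
      rw [sum_range_succ, sum_range_succ, ih]
      ring
  have h1 : -(49 * c * km + 1815 * c * km) ≤
      ∑ m ∈ range n, ((lev m : ℝ) - lev (m + 1)) * t (m + 1) := by
    rw [habel]
    have e1 : (0 : ℝ) ≤ lev 0 * t 0 := mul_nonneg (Nat.cast_nonneg _) (hg 0)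
    have e2 : (lev n : ℝ) * t n ≤ km * (49 * c) :=
      mul_le_mul (by exact_mod_cast hlev n le_rfl) (htle n) (hg n) (Nat.cast_nonneg _)
    have e3 : ∀ m ∈ range n, -(km * (c * 1815 / n)) ≤ (lev m : ℝ) * (t (m + 1) - t m) := by
      intro m hm
      have hm' := mem_range.mp hm
      have e4 := abs_le.mp (hdiff m)
      have e5 : (lev m : ℝ) ≤ km := by exact_mod_cast hlev m hm'.le
      have e6 : (0 : ℝ) ≤ lev m := Nat.cast_nonneg _
      have e7 : 0 ≤ c * 1815 / n := by positivity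
      nlinarith [e4.1]
    have e4 := sum_le_sum e3
    rw [sum_const, card_range, nsmul_eq_mul] at e4
    have e5 : (n : ℝ) * -(km * (c * 1815 / n)) = -(1815 * c * km) := by
      field_simp
    rw [e5] at e4
    linarith
  -- the step inequality
  have h2 : ∑ m ∈ range n, t (m + 1) + ∑ m ∈ range n, ((lev m : ℝ) - lev (m + 1)) * t (m + 1) ≤
      L * ∑ m ∈ range n, (pp w (m + 1) : ℝ) * t (m + 1) + ∑ m ∈ range n, (e m : ℝ) * t (m + 1) := by
    rw [mul_sum, ← sum_add_distrib, ← sum_add_distrib]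
    refine sum_le_sum fun m hm => ?_
    have h3 : ((1 + lev m : ℕ) : ℝ) ≤ ((lev (m + 1) + L * pp w (m + 1) + e m : ℕ) : ℝ) := by
      exact_mod_cast hstep m (mem_range.mp hm)
    push_cast at h3
    have h4 := mul_le_mul_of_nonneg_right h3 (hg (m + 1))
    linarith
  have h3 : ∑ m ∈ range n, (e m : ℝ) * t (m + 1) ≤ ex * (49 * c) := by
    have e1 : ∑ m ∈ range n, (e m : ℝ) * t (m + 1) ≤ ∑ m ∈ range n, (e m : ℝ) * (49 * c) :=
      sum_le_sum fun m _ => mul_le_mul_of_nonneg_left (htle _) (Nat.cast_nonneg _)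
    rw [← sum_mul] at e1
    have e2 : (∑ m ∈ range n, (e m : ℝ)) ≤ ex := by exact_mod_cast hex
    have e3 : (∑ m ∈ range n, (e m : ℝ)) * (49 * c) ≤ ex * (49 * c) :=
      mul_le_mul_of_nonneg_right e2 (by positivity)
    linarith
  have h4 : 2 * ∑ m ∈ range n, (pp w (m + 1) : ℝ) * t (m + 1) ≤
      ∑ m ∈ range (n + 1), (rw' w m : ℝ) * t m + Kw w n * (49 * c) := by
    have e1 : 2 * ∑ m ∈ range n, (pp w (m + 1) : ℝ) * t (m + 1) ≤
        2 * ∑ m ∈ range (n + 1), (pp w m : ℝ) * t m := by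
      rw [sum_range_succ' (fun m => (pp w m : ℝ) * t m)]
      have : (0 : ℝ) ≤ pp w 0 * t 0 := mul_nonneg (Nat.cast_nonneg _) (hg 0)
      linarith
    have e2 : 2 * ∑ m ∈ range (n + 1), (pp w m : ℝ) * t m ≤
        ∑ m ∈ range (n + 1), (rw' w m : ℝ) * t m +
          ∑ m ∈ range (n + 1), ((rw' w m % 2 : ℕ) : ℝ) * t m := by
      rw [mul_sum, ← sum_add_distrib]
      refine sum_le_sum fun m _ => ?_
      have h5 : 2 * pp w m ≤ rw' w m + rw' w m % 2 := by
        unfold pp
        omega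
      have h6 : 2 * (pp w m : ℝ) ≤ rw' w m + ((rw' w m % 2 : ℕ) : ℝ) := by exact_mod_cast h5
      have h7 := mul_le_mul_of_nonneg_right h6 (hg m)
      linarith
    have e3 : ∑ m ∈ range (n + 1), ((rw' w m % 2 : ℕ) : ℝ) * t m ≤ Kw w n * (49 * c) := by
      have e4 : ∑ m ∈ range (n + 1), ((rw' w m % 2 : ℕ) : ℝ) * t m ≤
          ∑ m ∈ range (n + 1), ((rw' w m % 2 : ℕ) : ℝ) * (49 * c) :=
        sum_le_sum fun m _ => mul_le_mul_of_nonneg_left (htle _) (Nat.cast_nonneg _)
      rw [← sum_mul] at e4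
      have e5 : (∑ m ∈ range (n + 1), ((rw' w m % 2 : ℕ) : ℝ)) ≤ Kw w n := by
        exact_mod_cast mid_sum w n
      have e6 : (∑ m ∈ range (n + 1), ((rw' w m % 2 : ℕ) : ℝ)) * (49 * c) ≤
          Kw w n * (49 * c) := mul_le_mul_of_nonneg_right e5 (by positivity)
      linarith
    linarith
  have h5 : ∑ m ∈ range n, t m - 49 * c ≤ ∑ m ∈ range n, t (m + 1) := by
    have e1 : ∑ m ∈ range n, t (m + 1) + t 0 = ∑ m ∈ range n, t m + t n := by
      rw [← sum_range_succ', sum_range_succ]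
    have := hg n
    have := htle 0
    linarith
  have h6 : ∑ m ∈ range n, t m - (49 * c + 1864 * c * km + 49 * c * ex) ≤
      L * ∑ m ∈ range n, (pp w (m + 1) : ℝ) * t (m + 1) := by
    linarith
  have h7 : 2 / L * (∑ m ∈ range n, t m - (49 * c + 1864 * c * km + 49 * c * ex)) ≤
      2 * ∑ m ∈ range n, (pp w (m + 1) : ℝ) * t (m + 1) := by
    have e1 := mul_le_mul_of_nonneg_left h6 (by positivity : (0 : ℝ) ≤ 2 / L)
    have e2 : 2 / (L : ℝ) * (L * ∑ m ∈ range n, (pp w (m + 1) : ℝ) * t (m + 1)) =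
        2 * ∑ m ∈ range n, (pp w (m + 1) : ℝ) * t (m + 1) := by
      field_simp
    linarith
  have h8 : c * (49 * (Kw w n : ℝ) + 2 / L * (49 * ex + 1864 * km + 49)) =
      Kw w n * (49 * c) + 2 / L * (49 * c + 1864 * c * km + 49 * c * ex) := by ring
  rw [h8]
  linarith

end Run7.h409.Nz
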