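import Pool.Agent.Run7.h409.Nz.Digits

/-!
# Nonzero digits of square roots and of quadratic irrationals
-/

set_option autoImplicit false
set_option linter.unusedSectionVars false

open Finset

namespace Run7.h409.Nz

open Run7.h409.Dig
open Pool.Agent.H394R2.Ones (x K T r ep S T_succ T_pos T_le x_zero ep_nonneg ep_lt K_mono exc
  S_succ B_succ r_parity)
open Pool.Agent.H820R3.DG

section
variable {b : ℕ} {y : ℝ}

lemma sqrt_T_lower (hb : 2 ≤ b) (hy0 : 0 < y) (hy1 : y < 1) (hirr : Irrational y) {a : ℕ}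
    {C0 : ℤ} (hq : y ^ 2 + 2 * a * y = C0) {m : ℕ} (hm : 1 ≤ m) (hr : r b y m % 2 = 0) :
    ((Nat.gcd b 2 : ℕ) : ℝ) - 2 * a * ep b y m ≤ T b y m := by
  have hTpos := T_pos hb hy0 hy1 hirr m
  have hep := ep_nonneg (b := b) hy0 m
  set g : ℕ := Nat.gcd b 2 with hg
  set Z : ℕ → ℤ := fun k =>
    C0 * (b : ℤ) ^ k - S b y k - 2 * a * Pool.Agent.H394R2.Ones.B b y k with hZdef
  have hZ : ∀ k : ℕ, T b y k + 2 * a * ep b y k = (Z k : ℝ) := by
    intro k
    rw [hZdef]
    unfold T ep
    push_cast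
    linear_combination ((b : ℝ) ^ k) * hq
  have hrec : Z m = b * Z (m - 1) - r b y m - 2 * a * x b y m := by
    obtain ⟨k, rfl⟩ : ∃ k, m = k + 1 := ⟨m - 1, by omega⟩
    rw [hZdef]
    simp only [Nat.add_sub_cancel]
    rw [S_succ hb hy0 hy1, B_succ hb]
    push_cast
    ring
  have hZpos : 0 < Z m := by
    have h1 : (0 : ℝ) < Z m := by
      rw [← hZ]
      have : 0 ≤ 2 * (a : ℝ) * ep b y m := by positivity
      linarith
    exact_mod_cast h1
  have hdvd : (g : ℤ) ∣ Z m := by
    rw [hrec]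
    have h1 : (g : ℤ) ∣ (b : ℤ) := by exact_mod_cast Nat.gcd_dvd_left b 2
    have h2 : (g : ℤ) ∣ 2 := by exact_mod_cast Nat.gcd_dvd_right b 2
    obtain ⟨r', hr'⟩ : ∃ r' : ℕ, r b y m = 2 * r' := ⟨r b y m / 2, by omega⟩
    rw [hr']
    have h3 : (b : ℤ) * Z (m - 1) - ((2 * r' : ℕ) : ℤ) - 2 * a * (x b y m : ℤ) =
        b * Z (m - 1) - 2 * (r' + a * x b y m) := by push_cast; ring
    rw [h3]
    exact dvd_sub (Dvd.dvd.mul_right h1 _) (Dvd.dvd.mul_right h2 _)
  have hZg : (g : ℤ) ≤ Z m := Int.le_of_dvd hZpos hdvd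
  have hZgR : (g : ℝ) ≤ Z m := by exact_mod_cast hZg
  rw [← hZ] at hZgR
  linarith

open Classical in
/-- **Uniformity in the base.** -/
theorem sqrt_unif {y : ℝ} (hy0 : 0 < y) (hy1 : y < 1) (hirr : Irrational y) {a : ℕ}
    {C0 : ℤ} (hq : y ^ 2 + 2 * a * y = C0) : ∃ n0 : ℕ, ∀ n : ℕ, n0 ≤ n → ∀ b : ℕ, 2 ≤ b →
      ((Nat.gcd b 2 : ℕ) : ℝ) * n < t0 * (Kw (nz b y) n : ℝ) ^ 2 := by
  set s := a + 1 with hs
  obtain ⟨n1, h1⟩ := nz_ev (1 + s + s ^ 2 : ℝ) (by positivity) 2 1 le_rfl
  obtain ⟨n2, h2⟩ := nz_ev (1 + s + s ^ 2 : ℝ) (by positivity) 2 2 (by norm_num)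
  refine ⟨n1 + n2, fun n hn b hb => ?_⟩
  have hbR : (2 : ℝ) ≤ b := by exact_mod_cast hb
  have hb0 : (0 : ℝ) < b := by linarith
  -- the exceptional positions
  have hex : ∀ θ : ℝ, θ ≤ (Nat.gcd b 2 : ℕ) - 2 / (b : ℝ) →
      (((range n).filter (fun m => T b y m < θ)).card : ℝ) ≤
      (1 + s + s ^ 2 : ℝ) * (Kw (nz b y) n + 1) + n / 10000000 := by
    intro θ hθ
    have hsub : (range n).filter (fun m => T b y m < θ) ⊆
        ({0} : Finset ℕ) ∪ (range n).filter (fun m => hf (nz b y) m ≠ 0) ∪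
        (range n).filter (fun m => ∃ j, j < s ∧ nz b y (m + 1 + j) ≠ 0) := by
      intro m hm
      obtain ⟨hm1, hm2⟩ := mem_filter.mp hm
      by_contra hcon
      rw [mem_union, mem_union, mem_singleton, mem_filter, mem_filter] at hcon
      push Not at hcon
      obtain ⟨⟨h3, h4⟩, h5⟩ := hcon
      have h4' := h4 hm1
      have h5' := h5 hm1
      have hr : r b y m % 2 = 0 := by
        by_contra h6
        obtain ⟨h7, h8⟩ := r_parity (b := b) (y := y) m (by omega)
        unfold hf nz at h4'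
        rw [if_pos h7] at h4'
        split_ifs at h4' with h9
        omega
      have h6 := sqrt_T_lower hb hy0 hy1 hirr hq (by omega : 1 ≤ m) hr
      have h7 := ep_small (y := y) hb m s (by
        intro k hk1 hk2
        have := h5' (k - (m + 1)) (by omega)
        rw [show m + 1 + (k - (m + 1)) = k by omega] at this
        unfold nz at this
        split_ifs at this with h9
        exact h9)
      have h8 : (b : ℝ) * a ≤ (b : ℝ) ^ s := by
        have e1 : a < 2 ^ a := Nat.lt_two_pow_self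
        have e2 : (a : ℝ) ≤ 2 ^ a := by exact_mod_cast e1.le
        have e3 : (2 : ℝ) ^ a ≤ (b : ℝ) ^ a := pow_le_pow_left₀ (by norm_num) hbR a
        rw [hs, pow_succ, mul_comm]
        exact mul_le_mul_of_nonneg_right (e2.trans e3) hb0.le
      have hep := ep_nonneg (b := b) hy0 m
      have h9 : (b : ℝ) * a * ep b y m < 1 :=
        (mul_le_mul_of_nonneg_right h8 hep).trans_lt h7
      have h10 : 2 * a * ep b y m < 2 / (b : ℝ) := by
        rw [lt_div_iff₀ hb0]
        linarith
      linarith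
    have hc1 := (card_le_card hsub).trans ((card_union_le _ _).trans
      (Nat.add_le_add_right (card_union_le _ _) _))
    have hc2 := half_count (nz b y) n
    have hc3 := near_count (nz b y) (fun k => nz_le_one k) s n
    rw [card_singleton] at hc1
    have hc4 : ((range n).filter (fun m => T b y m < θ)).card ≤
        1 + Kw (nz b y) n + s * (Kw (nz b y) n + s) := by omega
    have hc5 : (((range n).filter (fun m => T b y m < θ)).card : ℝ) ≤
        1 + Kw (nz b y) n + s * (Kw (nz b y) n + s) := by exact_mod_cast hc4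
    refine hc5.trans ?_
    have e1 : (0 : ℝ) ≤ Kw (nz b y) n := Nat.cast_nonneg _
    have e2 : (0 : ℝ) ≤ s := Nat.cast_nonneg _
    have e3 : (0 : ℝ) ≤ (n : ℝ) / 10000000 := by positivity
    have e4 : (0 : ℝ) ≤ s ^ 2 * (Kw (nz b y) n : ℝ) := by positivity
    linarith
  rcases Nat.even_or_odd b with hev | hodd
  · have hg : Nat.gcd b 2 = 2 := Nat.gcd_eq_right hev.two_dvd
    have hb2 : 2 / (b : ℝ) ≤ 1 := by rw [div_le_one hb0]; exact hbR
    have h3 := h1 n (by omega) b y (2 - 2 / b) hb hy0 hy1 (by linarith) (by linarith) (by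
      rw [pow_one]
      apply le_of_eq
      field_simp) (hex _ (by rw [hg]; push_cast; linarith))
    rw [hg]
    push_cast at h3 ⊢
    rwa [div_one] at h3
  · have hg : Nat.gcd b 2 = 1 := Nat.Coprime.gcd_eq_one (by
      rw [Nat.coprime_two_right]; exact hodd)
    have hb3 : 3 ≤ b := by
      obtain ⟨c, hc⟩ := hodd
      omega
    have hb3R : (3 : ℝ) ≤ b := by exact_mod_cast hb3
    have hb2 : 2 / (b : ℝ) ≤ 2 / 3 := div_le_div_of_nonneg_left (by norm_num) (by norm_num) hb3R
    have h3 := h2 n (by omega) b y (1 / 3) hb hy0 hy1 (by norm_num) (by norm_num) (by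
      nlinarith [mul_nonneg (by linarith : (0 : ℝ) ≤ b - 3)
        (mul_nonneg (by linarith : (0 : ℝ) ≤ b - 2) (by linarith : (0 : ℝ) ≤ b - 1))])
      (hex _ (by rw [hg]; push_cast; linarith))
    rw [hg]
    push_cast at h3 ⊢
    rwa [div_self (by norm_num : (2 : ℝ) ≠ 0)] at h3

open Classical in
/-- Quadratic irrationals in the unit interval. -/
theorem quad_nz (hb : 2 ≤ b) (hy0 : 0 < y) (hy1 : y < 1) (hirr : Irrational y) {A B C : ℤ}
    (hA : 0 < A) (hq : (A : ℝ) * y ^ 2 + B * y + C = 0) {L : ℕ} (hL : 1 ≤ L)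
    (hc : 2 * (A : ℝ) * ((b : ℝ) - 1) ^ 2 <
      (Int.gcd b (2 * A) : ℕ) * b * ((b : ℝ) ^ L - 1)) :
    ∃ n0 : ℕ, ∀ n : ℕ, n0 ≤ n → 2 / (L : ℝ) * n < t0 * (Kw (nz b y) n : ℝ) ^ 2 := by
  have hbR : (2 : ℝ) ≤ b := by exact_mod_cast hb
  have hb0 : (0 : ℝ) < b := by linarith
  have hAR : (1 : ℝ) ≤ A := by exact_mod_cast hA
  have hA0 : (0 : ℝ) < A := by linarith
  have halg : IsAlgebraic ℚ y := by
    refine ⟨Polynomial.C (A : ℚ) * Polynomial.X ^ 2 + Polynomial.C (B : ℚ) * Polynomial.X +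
      Polynomial.C (C : ℚ), ?_, ?_⟩
    · intro h
      have h1 := congrArg (fun p => Polynomial.coeff p 2) h
      simp only [Polynomial.coeff_add, Polynomial.coeff_C_mul, Polynomial.coeff_X_pow,
        Polynomial.coeff_X, Polynomial.coeff_C, Polynomial.coeff_zero] at h1
      norm_num at h1
      omega
    · simp only [map_add, map_mul, map_pow, Polynomial.aeval_X, Polynomial.aeval_C]
      simpa using hq
  set g : ℕ := Int.gcd b (2 * A) with hg
  set τ : ℝ := (g : ℝ) / A with hτ
  have hbL : (1 : ℝ) < (b : ℝ) ^ L := one_lt_pow₀ (by linarith) (by omega)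
  have hden : 0 < (b : ℝ) * ((b : ℝ) ^ L - 1) := mul_pos hb0 (by linarith)
  set θ : ℝ := 2 * ((b : ℝ) - 1) ^ 2 / (b * ((b : ℝ) ^ L - 1)) with hθ
  have hθ0 : 0 < θ := by
    have : (0 : ℝ) < b - 1 := by linarith
    positivity
  have hθτ : θ < τ := by
    rw [hθ, hτ, div_lt_div_iff₀ hden hA0]
    linarith
  obtain ⟨s, hs⟩ : ∃ s : ℕ, |(B : ℝ)| / (τ - θ) < 2 ^ s := pow_unbounded_of_one_lt _ (by norm_num)
  obtain ⟨J0, hJ0⟩ : ∃ J0 : ℕ, 1 / θ < 2 ^ J0 := pow_unbounded_of_one_lt _ (by norm_num)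
  obtain ⟨C1, hC10, hC1⟩ := bad_count hb hy0 hy1 halg hirr |(B : ℝ)| (1 / 10000000)
    (by norm_num) (by norm_num)
  obtain ⟨n1, h1⟩ := nz_ev (1 + 2 + C1 * b + s + s ^ 2 : ℝ) (by positivity) J0 L hL
  refine ⟨n1, fun n hn => h1 n hn b y θ hb hy0 hy1 hθ0 ?_ ?_ ?_⟩
  · rw [div_lt_iff₀ hθ0] at hJ0
    linarith
  · apply le_of_eq
    rw [hθ, mul_assoc, div_mul_cancel₀ _ hden.ne']
  · have hsub : (range n).filter (fun m => T b y m < θ) ⊆
        ((({0} : Finset ℕ) ∪ (range n).filter (fun m => nz b y m ≠ 0)) ∪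
        (range n).filter (fun m => hf (nz b y) m ≠ 0)) ∪
        ((range n).filter (fun m => T b y m ≤ |(B : ℝ)| * ep b y m) ∪
        (range n).filter (fun m => ∃ j, j < s ∧ nz b y (m + 1 + j) ≠ 0)) := by
      intro m hm
      obtain ⟨hm1, hm2⟩ := mem_filter.mp hm
      by_contra hcon
      rw [mem_union, mem_union, mem_union, mem_union, mem_singleton, mem_filter, mem_filter,
        mem_filter, mem_filter] at hcon
      push Not at hcon
      obtain ⟨⟨⟨h3, h4⟩, h5⟩, h6, h7⟩ := hcon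
      have h4' := h4 hm1
      have h5' := h5 hm1
      have h6' := h6 hm1
      have h7' := h7 hm1
      have hx : x b y m = 0 := by
        unfold nz at h4'
        split_ifs at h4' with h9
        exact h9
      have hexc : exc b y m = 0 := by
        unfold hf nz at h5'
        unfold exc
        split_ifs with h9
        · rw [if_pos h9] at h5'
          split_ifs at h5' with h10
          exact h10
        · rfl
      have h8 := T_lower' hb hy0 hy1 hirr hA hq m
      rw [← hg, ← hτ] at h8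
      unfold dd at h8
      rw [hx, hexc, if_neg (not_le.mpr h6'), if_neg (by omega)] at h8
      have h9 := ep_small (y := y) hb m s (by
        intro k hk1 hk2
        have := h7' (k - (m + 1)) (by omega)
        rw [show m + 1 + (k - (m + 1)) = k by omega] at this
        unfold nz at this
        split_ifs at this with h9
        exact h9)
      have hep := ep_nonneg (b := b) hy0 m
      have h10 : (2 : ℝ) ^ s * ep b y m < 1 :=
        (mul_le_mul_of_nonneg_right (pow_le_pow_left₀ (by norm_num) hbR s) hep).trans_lt h9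
      have h11 : |(B : ℝ)| * ep b y m ≤ τ - θ := by
        rw [div_lt_iff₀ (by linarith)] at hs
        have e1 := mul_le_mul_of_nonneg_right hs.le hep
        have e2 : (τ - θ) * (2 ^ s * ep b y m) ≤ (τ - θ) * 1 :=
          mul_le_mul_of_nonneg_left h10.le (by linarith)
        linarith
      push_cast at h8
      linarith
    have hc1 := card_le_card hsub
    have hc2 := half_count (nz b y) n
    have hc3 := near_count (nz b y) (fun k => nz_le_one k) s n
    have hc4 := self_count (nz b y) n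
    have u1 := card_union_le ((({0} : Finset ℕ) ∪ (range n).filter (fun m => nz b y m ≠ 0)) ∪
        (range n).filter (fun m => hf (nz b y) m ≠ 0))
        ((range n).filter (fun m => T b y m ≤ |(B : ℝ)| * ep b y m) ∪
        (range n).filter (fun m => ∃ j, j < s ∧ nz b y (m + 1 + j) ≠ 0))
    have u2 := card_union_le (({0} : Finset ℕ) ∪ (range n).filter (fun m => nz b y m ≠ 0))
        ((range n).filter (fun m => hf (nz b y) m ≠ 0))
    have u3 := card_union_le ({0} : Finset ℕ) ((range n).filter (fun m => nz b y m ≠ 0))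
    have u4 := card_union_le ((range n).filter (fun m => T b y m ≤ |(B : ℝ)| * ep b y m))
        ((range n).filter (fun m => ∃ j, j < s ∧ nz b y (m + 1 + j) ≠ 0))
    rw [card_singleton] at u3
    have hc5 : ((range n).filter (fun m => T b y m < θ)).card ≤
        1 + 2 * Kw (nz b y) n + ((range n).filter (fun m => T b y m ≤ |(B : ℝ)| * ep b y m)).card
          + s * (Kw (nz b y) n + s) := by omega
    have hc6 : (((range n).filter (fun m => T b y m < θ)).card : ℝ) ≤
        1 + 2 * Kw (nz b y) n + ((range n).filter (fun m => T b y m ≤ |(B : ℝ)| * ep b y m)).card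
          + s * (Kw (nz b y) n + s) := by exact_mod_cast hc5
    have hc7 := hC1 n
    have hc8 : (K b y n : ℝ) + 1 ≤ b * (Kw (nz b y) n + 1) := by
      have e1 : (K b y n : ℝ) ≤ ((b - 1 : ℕ) : ℝ) * Kw (nz b y) n := by
        exact_mod_cast K_le (y := y) hb n
      rw [Nat.cast_sub (by omega)] at e1
      have e2 : (0 : ℝ) ≤ Kw (nz b y) n := Nat.cast_nonneg _
      push_cast at e1
      nlinarith
    have hc9 := mul_le_mul_of_nonneg_left hc8 hC10
    have e1 : (0 : ℝ) ≤ Kw (nz b y) n := Nat.cast_nonneg _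
    have e2 : (0 : ℝ) ≤ s := Nat.cast_nonneg _
    have e4 : (0 : ℝ) ≤ s ^ 2 * (Kw (nz b y) n : ℝ) := by positivity
    have e5 : (1 + 2 + C1 * b + s + s ^ 2 : ℝ) * (Kw (nz b y) n + 1) =
        1 + 2 * Kw (nz b y) n + C1 * (b * (Kw (nz b y) n + 1)) + s * (Kw (nz b y) n + s) +
        (Kw (nz b y) n + 2 + s + s ^ 2 * Kw (nz b y) n) := by ring
    rw [e5]
    linarith

end

end Run7.h409.Nz
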