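import Pool.Agent.Run7.h409.Nz.Quad

/-!
# Nonzero digits of real quadratic irrationals: final forms
-/

set_option autoImplicit false
set_option linter.unusedSectionVars false

open Finset

namespace Run7.h409.Nz

open Run7.h409.Dig
open Pool.Agent.H394R2.Ones (x B_succ x_zero)
open Pool.Agent.H820R3.DG

lemma digit_eq {b : ℕ} (hb : 2 ≤ b) (ξ : ℝ) (k : ℕ) (hk : 1 ≤ k) :
    ⌊ξ * (b : ℝ) ^ k⌋ % (b : ℤ) = (x b (Int.fract ξ) k : ℤ) := by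
  obtain ⟨k, rfl⟩ : ∃ j, k = j + 1 := ⟨k - 1, by omega⟩
  set y : ℝ := Int.fract ξ with hy
  have hy0 : 0 ≤ y := Int.fract_nonneg ξ
  have hξ : ξ = ⌊ξ⌋ + y := (Int.floor_add_fract ξ).symm
  have h1 : ξ * (b : ℝ) ^ (k + 1) = ((⌊ξ⌋ * (b : ℤ) ^ (k + 1) : ℤ) : ℝ) +
      y * (b : ℝ) ^ (k + 1) := by
    nth_rewrite 1 [hξ]
    push_cast
    ring
  rw [h1, Int.floor_intCast_add]
  unfold x Pool.Agent.H394R2.Ones.B
  push_cast
  rw [Int.natCast_floor_eq_floor (by positivity)]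
  rw [show ⌊ξ⌋ * (b : ℤ) ^ (k + 1) + ⌊y * (b : ℝ) ^ (k + 1)⌋ =
    ⌊y * (b : ℝ) ^ (k + 1)⌋ + (b : ℤ) * (⌊ξ⌋ * (b : ℤ) ^ k) by ring, Int.add_mul_emod_self_left]

lemma count_eq {b : ℕ} (hb : 2 ≤ b) {ξ : ℝ} (hy0 : 0 < Int.fract ξ) (n : ℕ) :
    Kw (nz b (Int.fract ξ)) n =
      ((Icc 1 n).filter (fun k => ⌊ξ * (b : ℝ) ^ k⌋ % (b : ℤ) ≠ 0)).card := by
  have hy1 : Int.fract ξ < 1 := Int.fract_lt_one ξ
  rw [card_filter]
  unfold Kw
  rw [sum_range_succ']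
  have h0 : nz b (Int.fract ξ) 0 = 0 := by unfold nz; rw [x_zero hy0 hy1, if_pos rfl]
  rw [h0, add_zero]
  have h1 : ∀ m : ℕ, ∑ k ∈ range m, nz b (Int.fract ξ) (k + 1) =
      ∑ k ∈ Icc 1 m, if ⌊ξ * (b : ℝ) ^ k⌋ % (b : ℤ) ≠ 0 then 1 else 0 := by
    intro m
    induction m with
    | zero => simp
    | succ m ih =>
      rw [sum_range_succ, Finset.sum_Icc_succ_top (by omega), ih, digit_eq hb ξ (m + 1) (by omega)]
      congr 1
      unfold nz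
      by_cases h : x b (Int.fract ξ) (m + 1) = 0
      · rw [if_pos h, if_neg (by rw [h]; simp)]
      · rw [if_neg h, if_pos (by exact_mod_cast h)]
  exact h1 n

lemma sqrt_form {X N : ℝ} (hX : 0 ≤ X) (hN : 0 ≤ N) (h : 2 * X < t0 * N ^ 2) :
    38 / 25 * Real.sqrt X < N := by
  have h1 : (38 / 25 * Real.sqrt X) ^ 2 < N ^ 2 := by
    rw [mul_pow, Real.sq_sqrt hX]
    unfold t0 at h
    linarith
  exact lt_of_pow_lt_pow_left₀ 2 hN h1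

/-- Square roots: uniform in the base. -/
theorem sqrt_real {d : ℕ} (hd : ¬ IsSquare d) : ∃ n0 : ℕ, ∀ n : ℕ, n0 ≤ n → ∀ b : ℕ, 2 ≤ b →
    38 / 25 * Real.sqrt ((Nat.gcd b 2 : ℕ) * n / 2) <
      (((Icc 1 n).filter (fun k => ⌊Real.sqrt d * (b : ℝ) ^ k⌋ % (b : ℤ) ≠ 0)).card : ℝ) := by
  have hirr : Irrational (Real.sqrt d) := by
    have := (irrational_sqrt_natCast_iff (n := d)).mpr hd
    exact this
  set a : ℕ := ⌊Real.sqrt d⌋₊ with ha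
  set y : ℝ := Int.fract (Real.sqrt d) with hy
  have hfl : (⌊Real.sqrt d⌋ : ℝ) = a := by
    rw [ha]
    exact_mod_cast (natCast_floor_eq_intCast_floor (Real.sqrt_nonneg d)).symm
  have hξ : Real.sqrt d = a + y := by
    rw [← hfl]
    exact (Int.floor_add_fract _).symm
  have hyirr : Irrational y := by
    have : y = Real.sqrt d - (⌊Real.sqrt d⌋ : ℤ) := rfl
    rw [this]
    exact hirr.sub_intCast _
  have hy0 : 0 < y := lt_of_le_of_ne (Int.fract_nonneg _) (Ne.symm hyirr.ne_zero)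
  have hy1 : y < 1 := Int.fract_lt_one _
  have hsq : Real.sqrt d ^ 2 = d := Real.sq_sqrt (Nat.cast_nonneg _)
  have hq : y ^ 2 + 2 * a * y = (((d : ℤ) - (a : ℤ) ^ 2 : ℤ) : ℝ) := by
    rw [hξ] at hsq
    push_cast
    linarith
  obtain ⟨n0, h0⟩ := sqrt_unif hy0 hy1 hyirr hq
  refine ⟨n0, fun n hn b hb => ?_⟩
  rw [← count_eq hb hy0 n]
  apply sqrt_form (by positivity) (Nat.cast_nonneg _)
  have h1 := h0 n hn b hb
  have e : 2 * ((Nat.gcd b 2 : ℕ) * (n : ℝ) / 2) = (Nat.gcd b 2 : ℕ) * (n : ℝ) := by ring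
  rw [e]
  exact h1

/-- Real quadratic irrationals. -/
theorem quad_real_nz {b : ℕ} (hb : 2 ≤ b) {A B C : ℤ} (hA : 0 < A) {ξ : ℝ} (hirr : Irrational ξ)
    (hq : (A : ℝ) * ξ ^ 2 + B * ξ + C = 0) {L : ℕ} (hL : 1 ≤ L)
    (hc : 2 * (A : ℝ) * ((b : ℝ) - 1) ^ 2 <
      (Int.gcd b (2 * A) : ℕ) * b * ((b : ℝ) ^ L - 1)) :
    ∃ n0 : ℕ, ∀ n : ℕ, n0 ≤ n → 38 / 25 * Real.sqrt ((n : ℝ) / L) <
      (((Icc 1 n).filter (fun k => ⌊ξ * (b : ℝ) ^ k⌋ % (b : ℤ) ≠ 0)).card : ℝ) := by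
  set y : ℝ := Int.fract ξ with hy
  have hξ : ξ = ⌊ξ⌋ + y := (Int.floor_add_fract ξ).symm
  have hyirr : Irrational y := by
    have : y = ξ - (⌊ξ⌋ : ℤ) := rfl
    rw [this]
    exact hirr.sub_intCast _
  have hy0 : 0 < y := lt_of_le_of_ne (Int.fract_nonneg ξ) (Ne.symm hyirr.ne_zero)
  have hy1 : y < 1 := Int.fract_lt_one ξ
  have hq' : (A : ℝ) * y ^ 2 + ((B + 2 * A * ⌊ξ⌋ : ℤ) : ℝ) * y +
      ((C + B * ⌊ξ⌋ + A * ⌊ξ⌋ ^ 2 : ℤ) : ℝ) = 0 := by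
    have h1 : (A : ℝ) * (⌊ξ⌋ + y) ^ 2 + B * (⌊ξ⌋ + y) + C = 0 := by rw [← hξ]; exact hq
    push_cast
    linarith
  obtain ⟨n0, h0⟩ := quad_nz hb hy0 hy1 hyirr hA hq' hL hc
  refine ⟨n0, fun n hn => ?_⟩
  rw [← count_eq hb hy0 n]
  apply sqrt_form (by positivity) (Nat.cast_nonneg _)
  have h1 := h0 n hn
  have e : 2 * ((n : ℝ) / L) = 2 / L * n := by ring
  rw [e]
  exact h1

/-- A block without ones. -/
lemma block_zero {b : ℕ} {y : ℝ} (hb : 2 ≤ b) (N : ℕ) : ∀ t : ℕ,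
    (∀ i, 1 ≤ i → i ≤ t → x b y (N + i) = 0) →
    Pool.Agent.H394R2.Ones.B b y (N + t) = b ^ t * Pool.Agent.H394R2.Ones.B b y N := by
  intro t
  induction t with
  | zero => intro _; simp
  | succ t ih =>
    intro h
    rw [← add_assoc, B_succ hb, ih (fun i h1 h2 => h i h1 (by omega)),
      show N + t + 1 = N + (t + 1) by ring, h (t + 1) (by omega) le_rfl]
    ring

lemma block_digit {ξ : ℝ} {k : ℕ} (hk : 1 ≤ k) (j : ℕ)
    (h : ⌊ξ * ((2 ^ k : ℕ) : ℝ) ^ (j + 1)⌋ % ((2 ^ k : ℕ) : ℤ) ≠ 0) :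
    ∃ i ∈ Icc (j * k + 1) ((j + 1) * k), ⌊ξ * ((2 : ℕ) : ℝ) ^ i⌋ % ((2 : ℕ) : ℤ) = 1 := by
  have h2k : 2 ≤ 2 ^ k := by
    calc 2 = 2 ^ 1 := rfl
      _ ≤ 2 ^ k := Nat.pow_le_pow_right (by norm_num) hk
  rw [digit_eq h2k ξ (j + 1) (by omega)] at h
  by_contra hcon
  push Not at hcon
  apply h
  have hz : ∀ i, 1 ≤ i → i ≤ k → x 2 (Int.fract ξ) (j * k + i) = 0 := by
    intro i hi1 hi2
    have h1 := hcon (j * k + i) (by
      rw [mem_Icc]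
      constructor
      · omega
      · calc j * k + i ≤ j * k + k := by omega
          _ = (j + 1) * k := by ring)
    rw [digit_eq le_rfl ξ (j * k + i) (by omega)] at h1
    have h3 : x 2 (Int.fract ξ) (j * k + i) < 2 := Nat.mod_lt _ (by norm_num)
    have h4 : x 2 (Int.fract ξ) (j * k + i) ≠ 1 := by exact_mod_cast h1
    omega
  have h1 := block_zero (b := 2) (y := Int.fract ξ) le_rfl (j * k) k hz
  have h5 : Pool.Agent.H394R2.Ones.B (2 ^ k) (Int.fract ξ) (j + 1) =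
      Pool.Agent.H394R2.Ones.B 2 (Int.fract ξ) (j * k + k) := by
    unfold Pool.Agent.H394R2.Ones.B
    congr 2
    push_cast
    rw [← pow_mul]
    congr 1
    ring
  have h6 : x (2 ^ k) (Int.fract ξ) (j + 1) = 0 := by
    unfold x
    rw [h5, h1]
    exact Nat.mul_mod_right _ _
  rw [h6]
  rfl

lemma card_aux (n : ℕ) (P Q : ℕ → Prop) [DecidablePred P] [DecidablePred Q]
    (h : ∀ i, 1 ≤ i → i ≤ n → P i → Q (i - 1)) :
    ((Icc 1 n).filter P).card ≤ ((range n).filter Q).card := by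
  apply card_le_card_of_injOn (fun i => i - 1)
  · intro i hi
    obtain ⟨h3', h5⟩ := mem_filter.mp (mem_coe.mp hi)
    obtain ⟨h3, h4⟩ := mem_Icc.mp h3'
    have h6 : i - 1 < n := by omega
    exact mem_coe.mpr (mem_filter.mpr ⟨mem_range.mpr h6, h i h3 h4 h5⟩)
  · intro i hi i' hi' h
    have h3 := (mem_Icc.mp (mem_filter.mp (mem_coe.mp hi)).1).1
    have h4 := (mem_Icc.mp (mem_filter.mp (mem_coe.mp hi')).1).1
    have h5 : i - 1 = i' - 1 := h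
    omega

open Classical in
/-- Blocks of binary digits of square roots, uniformly in the length of the blocks. -/
theorem sqrt_blocks {d : ℕ} (hd : ¬ IsSquare d) : ∃ n0 : ℕ, ∀ n : ℕ, n0 ≤ n → ∀ k : ℕ, 1 ≤ k →
    38 / 25 * Real.sqrt n <
      (((range n).filter (fun j => ∃ i ∈ Icc (j * k + 1) ((j + 1) * k),
        ⌊Real.sqrt d * ((2 : ℕ) : ℝ) ^ i⌋ % ((2 : ℕ) : ℤ) = 1)).card : ℝ) := by
  obtain ⟨n0, h0⟩ := sqrt_real hd
  refine ⟨n0, fun n hn k hk => ?_⟩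
  have h2k : 2 ≤ 2 ^ k := by
    calc 2 = 2 ^ 1 := rfl
      _ ≤ 2 ^ k := Nat.pow_le_pow_right (by norm_num) hk
  have h1 := h0 n hn (2 ^ k) h2k
  have hg : Nat.gcd (2 ^ k) 2 = 2 := Nat.gcd_eq_right (dvd_pow_self 2 (by omega))
  rw [hg] at h1
  have e : ((2 : ℕ) : ℝ) * n / 2 = n := by push_cast; ring
  rw [e] at h1
  refine h1.trans_le ?_
  have h2 : ((Icc 1 n).filter (fun i =>
      ⌊Real.sqrt d * ((2 ^ k : ℕ) : ℝ) ^ i⌋ % ((2 ^ k : ℕ) : ℤ) ≠ 0)).card ≤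
      ((range n).filter (fun j => ∃ i ∈ Icc (j * k + 1) ((j + 1) * k),
        ⌊Real.sqrt d * ((2 : ℕ) : ℝ) ^ i⌋ % ((2 : ℕ) : ℤ) = 1)).card := by
    have h3 := card_aux n (fun i => ⌊Real.sqrt d * ((2 ^ k : ℕ) : ℝ) ^ i⌋ % ((2 ^ k : ℕ) : ℤ) ≠ 0)
      (fun j => ∃ i ∈ Icc (j * k + 1) ((j + 1) * k),
        ⌊Real.sqrt d * ((2 : ℕ) : ℝ) ^ i⌋ % ((2 : ℕ) : ℤ) = 1)
      (fun i h3 _ h5 => block_digit hk _ (by rw [Nat.sub_add_cancel h3]; exact h5))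
    convert h3
  exact_mod_cast h2

end Run7.h409.Nz
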