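import Pool.Agent.Run7.h409.Nz.Pot
import Pool.Agent.H820R3.DG.Quad

/-!
# The step inequality for the nonzero digits
-/

set_option autoImplicit false
set_option linter.unusedSectionVars false

open Finset

namespace Run7.h409.Nz

open Run7.h409.Dig
open Pool.Agent.H394R2.Ones (x K T r ep T_succ T_pos T_le x_zero ep_nonneg ep_lt K_mono)
open Pool.Agent.H820R3.DG

/-- indicator of the nonzero digits -/
noncomputable def nz (b : ℕ) (y : ℝ) (k : ℕ) : ℕ := if x b y k = 0 then 0 else 1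

section
variable {b : ℕ} {y : ℝ}

lemma nz_le_one (k : ℕ) : nz b y k ≤ 1 := by
  unfold nz; split_ifs <;> omega

lemma x_le (hb : 2 ≤ b) (k : ℕ) : x b y k ≤ (b - 1) * nz b y k := by
  unfold nz
  split_ifs with h
  · rw [h]; exact Nat.zero_le _
  · have : x b y k < b := Nat.mod_lt _ (by omega)
    omega

lemma r_le (hb : 2 ≤ b) (m : ℕ) : r b y m ≤ (b - 1) ^ 2 * rw' (nz b y) m := by
  unfold r rw'
  rw [mul_sum]
  refine sum_le_sum fun p _ => ?_
  calc x b y p.1 * x b y p.2 ≤ ((b - 1) * nz b y p.1) * ((b - 1) * nz b y p.2) :=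
        Nat.mul_le_mul (x_le hb _) (x_le hb _)
    _ = (b - 1) ^ 2 * (nz b y p.1 * nz b y p.2) := by ring

lemma K_le (hb : 2 ≤ b) (n : ℕ) : K b y n ≤ (b - 1) * Kw (nz b y) n := by
  unfold K Kw
  rw [mul_sum]
  exact sum_le_sum fun k _ => x_le hb k

lemma Kw_le (hy0 : 0 < y) (hy1 : y < 1) (n : ℕ) : Kw (nz b y) n ≤ n := by
  unfold Kw
  rw [sum_range_succ']
  have h0 : nz b y 0 = 0 := by unfold nz; rw [x_zero hy0 hy1, if_pos rfl]
  rw [h0, add_zero]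
  calc ∑ i ∈ range n, nz b y (i + 1) ≤ ∑ i ∈ range n, 1 := sum_le_sum fun i _ => nz_le_one _
    _ = n := by simp

lemma T_le' (hb : 2 ≤ b) (hy0 : 0 < y) (hy1 : y < 1) (m : ℕ) : T b y m ≤ b * (m + 1) := by
  have h1 := T_le hb hy0 hy1 m
  have h2 := (K_le (y := y) hb m).trans (Nat.mul_le_mul_left (b - 1) (Kw_le (b := b) hy0 hy1 m))
  have h3 : (K b y m : ℝ) ≤ ((b - 1 : ℕ) : ℝ) * m := by exact_mod_cast h2
  rw [Nat.cast_sub (by omega)] at h3
  have h4 : (0 : ℝ) ≤ m := Nat.cast_nonneg _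
  have h5 : (2 : ℝ) ≤ b := by exact_mod_cast hb
  push_cast at h3
  nlinarith

/-- the level -/
noncomputable def lev (b : ℕ) (y θ : ℝ) (m : ℕ) : ℕ :=
  sInf {j : ℕ | T b y m < θ * (b : ℝ) ^ (j + 1)}

lemma lev_le {θ : ℝ} {m j : ℕ} (h : T b y m < θ * (b : ℝ) ^ (j + 1)) : lev b y θ m ≤ j :=
  Nat.sInf_le h

lemma lev_spec {θ : ℝ} {m j : ℕ} (h : T b y m < θ * (b : ℝ) ^ (j + 1)) :
    T b y m < θ * (b : ℝ) ^ (lev b y θ m + 1) :=
  Nat.sInf_mem (s := {j : ℕ | T b y m < θ * (b : ℝ) ^ (j + 1)}) ⟨j, h⟩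

open Classical in
lemma step (hb : 2 ≤ b) (hy0 : 0 < y) (hy1 : y < 1) {L : ℕ} {θ : ℝ}
    (hθ0 : 0 < θ) (hθ : 2 * ((b : ℝ) - 1) ^ 2 ≤ θ * b * ((b : ℝ) ^ L - 1)) {m km : ℕ}
    (hk : T b y (m + 1) < θ * (b : ℝ) ^ (km + 1)) :
    1 + lev b y θ m ≤ lev b y θ (m + 1) + L * pp (nz b y) (m + 1) +
      (if T b y m < θ then 1 else 0) := by
  have hbR : (2 : ℝ) ≤ b := by exact_mod_cast hb
  by_cases hm : T b y m < θ
  · rw [if_pos hm]
    have h1 : lev b y θ m ≤ 0 := by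
      apply lev_le
      refine hm.trans_le ?_
      rw [zero_add, pow_one]
      nlinarith
    omega
  · rw [if_neg hm, add_zero]
    have h1 := lev_spec hk
    set k' := lev b y θ (m + 1) with hk'
    set p := pp (nz b y) (m + 1) with hp
    have h2 := T_succ hb hy0 hy1 m
    have h3 : (r b y (m + 1) : ℝ) ≤ ((b : ℝ) - 1) ^ 2 * (2 * p) := by
      have e1 := r_le (y := y) hb (m + 1)
      have e2 : rw' (nz b y) (m + 1) ≤ 2 * p := by
        rw [hp]; unfold pp; omega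
      have e3 := e1.trans (Nat.mul_le_mul_left ((b - 1) ^ 2) e2)
      have e4 : (r b y (m + 1) : ℝ) ≤ (((b - 1) ^ 2 * (2 * p) : ℕ) : ℝ) := by exact_mod_cast e3
      push_cast at e4
      rw [Nat.cast_sub (by omega)] at e4
      push_cast at e4
      exact e4
    have hbL : (1 : ℝ) ≤ (b : ℝ) ^ L := one_le_pow₀ (by linarith)
    have h4 : 1 + (p : ℝ) * ((b : ℝ) ^ L - 1) ≤ ((b : ℝ) ^ L) ^ p := by
      have := one_add_mul_le_pow (a := (b : ℝ) ^ L - 1) (by linarith) p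
      rwa [add_sub_cancel] at this
    have h5 : (1 : ℝ) ≤ (b : ℝ) ^ k' := one_le_pow₀ (by linarith)
    have h6 : θ * (b : ℝ) ^ (k' + L * p + 1) =
        θ * b * (b : ℝ) ^ k' * ((b : ℝ) ^ L) ^ p := by
      rw [pow_add, pow_add, pow_mul, pow_one]; ring
    have h7 : θ * b * (b : ℝ) ^ k' * (1 + p * ((b : ℝ) ^ L - 1)) ≤
        θ * b * (b : ℝ) ^ k' * ((b : ℝ) ^ L) ^ p :=
      mul_le_mul_of_nonneg_left h4 (by positivity)
    have h8 : (p : ℝ) * (2 * ((b : ℝ) - 1) ^ 2) ≤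
        (b : ℝ) ^ k' * (p * (θ * b * ((b : ℝ) ^ L - 1))) := by
      have e1 : (p : ℝ) * (2 * ((b : ℝ) - 1) ^ 2) ≤ p * (θ * b * ((b : ℝ) ^ L - 1)) :=
        mul_le_mul_of_nonneg_left hθ (Nat.cast_nonneg _)
      have e2 : 0 ≤ (p : ℝ) * (θ * b * ((b : ℝ) ^ L - 1)) :=
        mul_nonneg (Nat.cast_nonneg _) (mul_nonneg (by positivity) (by linarith))
      nlinarith
    have h9 : (b : ℝ) * T b y m < b * (θ * (b : ℝ) ^ (k' + L * p)) := by
      have e1 : (b : ℝ) * (θ * (b : ℝ) ^ (k' + L * p)) = θ * (b : ℝ) ^ (k' + L * p + 1) := by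
        rw [pow_succ]; ring
      rw [e1, h6]
      have e2 : (b : ℝ) * T b y m = T b y (m + 1) + r b y (m + 1) := by rw [h2]; ring
      rw [e2]
      have e3 : θ * (b : ℝ) ^ (k' + 1) = θ * b * (b : ℝ) ^ k' := by rw [pow_succ]; ring
      rw [e3] at h1
      linarith
    have h10 : T b y m < θ * (b : ℝ) ^ (k' + L * p) := lt_of_mul_lt_mul_left h9 (by linarith)
    rcases Nat.eq_zero_or_pos (k' + L * p) with h0 | h0
    · exfalso
      rw [h0, pow_zero, mul_one] at h10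
      exact hm h10
    · obtain ⟨j, hj⟩ : ∃ j, k' + L * p = j + 1 := ⟨k' + L * p - 1, by omega⟩
      rw [hj] at h10 ⊢
      have := lev_le h10
      omega

open Classical in
/-- **The inequality for one `n`.** -/
theorem nz_one (hb : 2 ≤ b) (hy0 : 0 < y) (hy1 : y < 1) {L : ℕ} (hL : 1 ≤ L) {θ : ℝ}
    (hθ0 : 0 < θ) (hθ : 2 * ((b : ℝ) - 1) ^ 2 ≤ θ * b * ((b : ℝ) ^ L - 1)) {n km ex : ℕ}
    (hn : 20000000 ≤ n) (hkm : (b : ℝ) * (n + 1) < θ * (b : ℝ) ^ (km + 1))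
    (hex : ((range n).filter (fun m => T b y m < θ)).card ≤ ex)
    (hE : 49 * (Kw (nz b y) n : ℝ) + 2 / L * (49 * ex + 1864 * km + 49) ≤ 2 / L * n / 35000) :
    2 / (L : ℝ) * n < t0 * (Kw (nz b y) n : ℝ) ^ 2 := by
  have hbR : (2 : ℝ) ≤ b := by exact_mod_cast hb
  have hLR : (1 : ℝ) ≤ L := by exact_mod_cast hL
  have hT : ∀ m, m ≤ n → T b y m < θ * (b : ℝ) ^ (km + 1) := by
    intro m hm
    refine ((T_le' hb hy0 hy1 m).trans ?_).trans_lt hkm
    have : (m : ℝ) ≤ n := by exact_mod_cast hm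
    nlinarith
  have H := hyp_of_step (w := nz b y) (n := n) (L := L) (km := km) (ex := ex) (by omega) hL
    (lev := lev b y θ) (e := fun m => if T b y m < θ then 1 else 0)
    (fun m hm => step hb hy0 hy1 hθ0 hθ (hT (m + 1) (by omega)))
    (fun m hm => lev_le (hT m hm)) (by rwa [card_filter] at hex)
  exact core1 H hn (by positivity) hE

end

end Run7.h409.Nz
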